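import Pool.Agent.helper48.AGR.Spec
import Mathlib.Algebra.Colimit.DirectLimit

/-!
Row `ag:DL` of the project AGR: the union of a chain of groups, by Mathlib's `DirectLimit`.
-/

set_option autoImplicit false

namespace Pool.Agent.AGR

open Monoid Function

/-- the composed map from level `i` to level `k` -/
def dlf {X : ℕ → Type} [∀ n, Group (X n)] (j : ∀ n, X n →* X (n + 1)) (i k : ℕ) (h : i ≤ k) :
    X i →* X k :=
  Nat.leRec (motive := fun k _ => X i →* X k) (MonoidHom.id _) (fun k _ g => (j k).comp g) h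

theorem dlf_self {X : ℕ → Type} [∀ n, Group (X n)] (j : ∀ n, X n →* X (n + 1)) (i : ℕ)
    (h : i ≤ i) : dlf j i i h = MonoidHom.id _ := by
  unfold dlf
  rw [Nat.leRec_self]

theorem dlf_succ {X : ℕ → Type} [∀ n, Group (X n)] (j : ∀ n, X n →* X (n + 1)) (i k : ℕ)
    (h : i ≤ k) (h' : i ≤ k + 1) : dlf j i (k + 1) h' = (j k).comp (dlf j i k h) := by
  unfold dlf
  rw [Nat.leRec_succ _ _ h]

theorem dlf_trans {X : ℕ → Type} [∀ n, Group (X n)] (j : ∀ n, X n →* X (n + 1)) (i k l : ℕ)
    (h : i ≤ k) (h' : k ≤ l) (x : X i) : dlf j k l h' (dlf j i k h x) = dlf j i l (h.trans h') x := by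
  induction l, h' using Nat.le_induction with
  | base => rw [dlf_self]; rfl
  | succ l hl ih =>
    rw [dlf_succ j k l hl, dlf_succ j i l (h.trans hl), MonoidHom.comp_apply, MonoidHom.comp_apply,
      ih]

theorem dlf_inj {X : ℕ → Type} [∀ n, Group (X n)] (j : ∀ n, X n →* X (n + 1))
    (hj : ∀ n, Injective (j n)) (i k : ℕ) (h : i ≤ k) : Injective (dlf j i k h) := by
  induction k, h using Nat.le_induction with
  | base => rw [dlf_self]; exact fun x y hxy => hxy
  | succ k hk ih =>
    rw [dlf_succ j i k hk]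
    exact (hj k).comp ih

theorem DL : DL_stmt := by
  intro X _ j hj
  have : DirectedSystem X (fun i k h => dlf j i k h) :=
    ⟨fun i x => by rw [dlf_self]; rfl, fun {k i l} h h' x => dlf_trans j _ _ _ h h' x⟩
  refine ⟨DirectLimit X (dlf j), inferInstance, fun n => MonoidHom.mk' (fun x => ⟦⟨n, x⟩⟧)
    (fun x y => (DirectLimit.mul_def n x y).symm), ?_, ?_, ?_⟩
  · intro n
    exact DirectLimit.mk_injective (dlf j) (fun i k h => dlf_inj j hj i k h) n
  · intro n x
    have h := DirectLimit.mk_apply (f := dlf j) n (n + 1) x (Nat.le_succ n)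
    rw [dlf_succ j n n le_rfl, dlf_self] at h
    exact h
  · intro y
    obtain ⟨n, x, h⟩ := DirectLimit.exists_eq_mk (dlf j) y
    exact ⟨n, x, h.symm⟩

end Pool.Agent.AGR
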